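import Mathlib

set_option autoImplicit false

namespace Pool.Agent.Results.MP_530eb6_co.OddOrders

/-- `S` is an independent set of `G`. -/
def Indep {V : Type} (G : SimpleGraph V) (S : Finset V) : Prop := ∀ u ∈ S, ∀ v ∈ S, ¬ G.Adj u v

/-- `S` is a maximal independent set of `G`. -/
def MaxIndep {V : Type} (G : SimpleGraph V) (S : Finset V) : Prop :=
  Indep G S ∧ ∀ T, Indep G T → S ⊆ T → T = S

/-- The independent domination number: the least size of a maximal independent set. -/
noncomputable def i {V : Type} (G : SimpleGraph V) : ℕ := sInf {k | ∃ S, MaxIndep G S ∧ S.card = k}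

/-- `f n` is the maximum of `i(G) i(Gᶜ)` over the graphs `G` on `n` vertices. -/
noncomputable def f (n : ℕ) : ℕ := sSup {k | ∃ G : SimpleGraph (Fin n), i G * i Gᶜ = k}

/-- The conjectured value of `f n`. -/
def formula (n : ℕ) : ℕ := if n % 2 = 0 then (n + 4) ^ 2 / 16 else (n + 3) ^ 2 / 16

/-- domination -/
def Dom {V : Type} (G : SimpleGraph V) (S : Finset V) : Prop := ∀ v, v ∉ S → ∃ u ∈ S, G.Adj u v

theorem maxIndep_iff {V : Type} [DecidableEq V] (G : SimpleGraph V) (S : Finset V) :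
    MaxIndep G S ↔ Indep G S ∧ Dom G S := by
  constructor
  · rintro ⟨h1, h2⟩
    refine ⟨h1, fun v hv => ?_⟩
    by_contra hcon
    push Not at hcon
    have h3 : Indep G (insert v S) := by
      intro a ha b hb hab
      rcases Finset.mem_insert.1 ha with ha1 | ha1
      · rcases Finset.mem_insert.1 hb with hb1 | hb1
        · rw [ha1, hb1] at hab
          exact G.loopless.irrefl _ hab
        · rw [ha1] at hab
          exact hcon b hb1 hab.symm
      · rcases Finset.mem_insert.1 hb with hb1 | hb1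
        · rw [hb1] at hab
          exact hcon a ha1 hab
        · exact h1 a ha1 b hb1 hab
    have h4 := h2 _ h3 (Finset.subset_insert v S)
    exact hv (h4 ▸ Finset.mem_insert_self v S)
  · rintro ⟨h1, h2⟩
    refine ⟨h1, fun T hT hST => ?_⟩
    apply Finset.Subset.antisymm _ hST
    intro v hv
    by_contra hcon
    obtain ⟨u, hu, huv⟩ := h2 v hcon
    exact hT u (hST hu) v hv huv

theorem i_eq {V : Type} [DecidableEq V] (G : SimpleGraph V) (k : ℕ) (S₀ : Finset V)
    (h0 : Indep G S₀) (h1 : Dom G S₀) (hc : S₀.card = k)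
    (h : ∀ S, Indep G S → Dom G S → k ≤ S.card) : i G = k := by
  have hmem : k ∈ {k | ∃ S, MaxIndep G S ∧ S.card = k} := ⟨S₀, (maxIndep_iff G S₀).2 ⟨h0, h1⟩, hc⟩
  apply le_antisymm (Nat.sInf_le hmem)
  apply le_csInf ⟨k, hmem⟩
  rintro m ⟨S, hS, rfl⟩
  obtain ⟨h2, h3⟩ := (maxIndep_iff G S).1 hS
  exact h S h2 h3

theorem le_f (n : ℕ) (G : SimpleGraph (Fin n)) : i G * i Gᶜ ≤ f n := by
  apply le_csSup
  · have h : {k | ∃ G : SimpleGraph (Fin n), i G * i Gᶜ = k} =
        Set.range (fun G : SimpleGraph (Fin n) => i G * i Gᶜ) := rfl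
    rw [h]
    exact (Set.finite_range _).bddAbove
  · exact ⟨G, rfl⟩

theorem i_bot {n : ℕ} : i (⊥ : SimpleGraph (Fin n)) = n := by
  apply i_eq _ _ Finset.univ
  · intro u _ v _ h
    exact h
  · intro v hv
    exact absurd (Finset.mem_univ v) hv
  · simp
  · intro S _ hS
    have : S = Finset.univ := by
      apply Finset.eq_univ_of_forall
      intro v
      by_contra hv
      obtain ⟨u, _, hu⟩ := hS v hv
      exact hu
    rw [this]
    simp

theorem i_compl_bot {n : ℕ} : i ((⊥ : SimpleGraph (Fin (n + 1)))ᶜ) = 1 := by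
  apply i_eq _ _ {0}
  · intro u hu v hv
    rw [Finset.mem_singleton] at hu hv
    rw [hu, hv]
    simp
  · intro v hv
    refine ⟨0, Finset.mem_singleton_self 0, ?_⟩
    simp only [SimpleGraph.compl_adj, SimpleGraph.bot_adj, not_false_eq_true, and_true]
    intro h
    exact hv (by rw [← h]; exact Finset.mem_singleton_self 0)
  · simp
  · intro S _ hS
    rw [Nat.one_le_iff_ne_zero, Ne, Finset.card_eq_zero]
    rintro rfl
    obtain ⟨u, hu, _⟩ := hS 0 (by simp)
    exact absurd hu (by simp)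

/-- The triangle `6 7 8` with two pendant vertices at each of its vertices. -/
def adj (u v : ℕ) : Bool := ([256, 256, 128, 128, 64, 64, 432, 332, 195].getD u 0).testBit v

def G9 : SimpleGraph (Fin 9) where
  Adj u v := adj u.val v.val = true
  symm := ⟨by decide⟩
  loopless := ⟨by decide⟩

instance : DecidableRel G9.Adj := fun u v => inferInstanceAs (Decidable (adj u.val v.val = true))

/-- adjacency in the complement -/
def adj' (u v : Fin 9) : Bool := decide (u ≠ v) && !(adj u.val v.val)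

theorem adj'_iff (u v : Fin 9) : G9ᶜ.Adj u v ↔ adj' u v = true := by
  rw [SimpleGraph.compl_adj]
  unfold adj'
  simp only [Bool.and_eq_true, decide_eq_true_eq, Bool.not_eq_true', ne_eq]
  change _ ∧ ¬ (adj u.val v.val = true) ↔ _
  rw [Bool.not_eq_true]

theorem i_G9 : i G9 = 5 := by
  apply i_eq _ _ {0, 1, 2, 3, 6}
  · unfold Indep
    decide +kernel
  · unfold Dom
    decide +kernel
  · decide
  · unfold Indep Dom
    decide +kernel

theorem i_G9' : i G9ᶜ = 2 := by
  apply i_eq _ _ {4, 6}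
  · unfold Indep
    simp only [adj'_iff]
    decide +kernel
  · unfold Dom
    simp only [adj'_iff]
    decide +kernel
  · decide
  · unfold Indep Dom
    simp only [adj'_iff]
    decide +kernel

/-- Disproof of Q1: the conjectured formula fails for `n = 5`, `n = 7` (empty graphs) and for
`n = 9` (a triangle with two pendant vertices at each vertex: `i(G) = 5`, `i(Gᶜ) = 2`). -/
theorem result :
    (formula 5 < i (⊥ : SimpleGraph (Fin 5)) * i (⊥ : SimpleGraph (Fin 5))ᶜ ∧
      formula 7 < i (⊥ : SimpleGraph (Fin 7)) * i (⊥ : SimpleGraph (Fin 7))ᶜ ∧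
      formula 9 < i G9 * i G9ᶜ) ∧
    (f 5 ≠ formula 5 ∧ f 7 ≠ formula 7 ∧ f 9 ≠ formula 9) ∧
    ¬ ∀ n, 4 ≤ n → f n = formula n := by
  have h5 : formula 5 < i (⊥ : SimpleGraph (Fin 5)) * i (⊥ : SimpleGraph (Fin 5))ᶜ := by
    rw [i_bot, i_compl_bot]
    decide
  have h7 : formula 7 < i (⊥ : SimpleGraph (Fin 7)) * i (⊥ : SimpleGraph (Fin 7))ᶜ := by
    rw [i_bot, i_compl_bot]
    decide
  have h9 : formula 9 < i G9 * i G9ᶜ := by
    rw [i_G9, i_G9']
    decide
  refine ⟨⟨h5, h7, h9⟩, ⟨?_, ?_, ?_⟩, fun h => ?_⟩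
  · exact (lt_of_lt_of_le h5 (le_f 5 _)).ne'
  · exact (lt_of_lt_of_le h7 (le_f 7 _)).ne'
  · exact (lt_of_lt_of_le h9 (le_f 9 _)).ne'
  · exact (lt_of_lt_of_le h9 (le_f 9 _)).ne' (h 9 (by norm_num))

end Pool.Agent.Results.MP_530eb6_co.OddOrders
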